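import Pool.Agent.Helper98.HQ.Asm
import Pool.Agent.Helper98.HQ.TOP
import Pool.Agent.Helper6.HQ.PF1
import Pool.Agent.Helper6.HQ.PF2
import Pool.Agent.Helper9.HQ.KWB
import Pool.Agent.Helper9.HQ.KWM
import Pool.Agent.Helper9.HQ.AREA1
import Pool.Agent.Helper16.HQ.LB
import Pool.Agent.Helper16.HQ.LBS
import Pool.Agent.Helper29.HQ.AREA2
import Pool.Agent.Helper29.HQ.POS
import Pool.Agent.Helper29.HQ.RED3
import Pool.Agent.Helper29.HQ.SLLN
import Pool.Agent.Helper29.HQ.SPR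
import Pool.Agent.Helper32.HQ.PERT
import Pool.Agent.Helper32.HQ.TEL
import Pool.Agent.Helper33.HQ.FORM
import Pool.Agent.Helper33.HQ.LIMS
import Pool.Agent.Helper33.HQ.IDLE
import Pool.Agent.Helper33.HQ.CNT
import Pool.Agent.Helper36.HQ.SQ
import Pool.Agent.Helper36.HQ.GEN
import Pool.Agent.Helper36.HQ.MEANB
import Pool.Agent.Helper36.HQ.DEC
import Pool.Agent.Helper36.HQ.ISO
import Pool.Agent.Helper36.HQ.BR
import Pool.Agent.Helper41.HQ.SRT
import Pool.Agent.Helper57.HQ.WEAK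
import Pool.Agent.H62.HQ.ID
import Pool.Agent.H62.HQ.PSYS
import Pool.Agent.H62.HQ.EXI
import Pool.Agent.Helper68.HQ.LOWS
import Pool.Agent.Helper68.HQ.LSL
import Pool.Agent.Helper79.HQ.DRIFT
import Pool.Agent.Helper84.HQ.LIPP
import Pool.Agent.Helper84.HQ.CPL
import Pool.Agent.Helper84.HQ.COAL
import Pool.Agent.Helper85.HQ.FORCE
import Pool.Agent.Helper85.HQ.QF
import Pool.Agent.Helper85.HQ.PSI
import Pool.Agent.Helper85.HQ.UNQ
import Pool.Agent.Helper89.HQ.RED1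
import Pool.Agent.Helper89.HQ.RED2
import Pool.Agent.Helper91.HQ.MXL
import Pool.Agent.Helper91.HQ.LIM
import Pool.Agent.Helper91.HQ.FAT

/-!
# MP_1ece5f_pr: mean workload limits under rare huge services in GI/GI/k

Full answer of Q1: the limits exist and are given by the displayed formulas, for every system.
Proof: second moment identity for all stationary laws, convergence of the stationary laws by forced
coalescence, lower bounds for `E w_1` and `E (w_k - w_1)` by Fatou's lemma along the fluid path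
after one huge service. Parts by helpers 6, 9, 16, 29, 32, 33, 36, 41, 57, 62, 68, 79, 84, 85, 89,
91, 98.
-/

set_option autoImplicit false

open MeasureTheory Filter Topology
open scoped ENNReal NNReal

namespace Pool.Agent.Results.MP_1ece5f_pr.HugeServiceLimits

open Pool.Agent.Helper98.HQ

/-- In the stable `GI/GI/k` queue with the Kiefer–Wolfowitz recursion `kw` the stationary law is
unique, also for the perturbed services `pert β ε μS`, the mean workloads are finite, and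
`E w_i(T, S^(ε)) - E w_i(T, S)` converges for `ε → 0` to the values of the problem. -/
theorem result (k : ℕ) (hk : 1 ≤ k) (μT μS : Measure ℝ) [IsProbabilityMeasure μT]
    [IsProbabilityMeasure μS] (hT0 : ∀ᵐ t ∂μT, 0 ≤ t) (hS0 : ∀ᵐ s ∂μS, 0 ≤ s)
    (hT2 : Integrable (fun t : ℝ => t ^ 2) μT) (hS2 : Integrable (fun s : ℝ => s ^ 2) μS)
    (hT : 0 < ∫ t, t ∂μT) (hS : 0 < ∫ s, s ∂μS) (ρ : ℝ)
    (hρ : ρ = (∫ s, s ∂μS) / (k * ∫ t, t ∂μT)) (hρ1 : ρ < 1) (β : ℝ) (hβ : 0 < β) :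
    (∃! π, IsStat k μT μS π) ∧
    (∀ ε, 0 < ε → ε < 1 / β → ∃! π, IsStat k μT (pert β ε μS) π) ∧
    ∀ (π : Measure (Fin k → ℝ)) (πe : ℝ → Measure (Fin k → ℝ)), IsStat k μT μS π →
      (∀ ε, 0 < ε → ε < 1 / β → IsStat k μT (pert β ε μS) (πe ε)) → ∀ i : Fin k,
        Integrable (fun w : Fin k → ℝ => w i) π ∧
        (∀ ε, 0 < ε → ε < 1 / β → Integrable (fun w : Fin k → ℝ => w i) (πe ε)) ∧
        ((i : ℕ) + 1 < k → Tendsto (fun ε => ∫ w, w i ∂(πe ε) - ∫ w, w i ∂π) (𝓝[>] 0)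
          (𝓝 (max (1 - k * (1 - ρ)) 0 / ρ *
            (β ^ 2 * (∫ s, s ^ 2 ∂μS) / (2 * k ^ 2 * (1 - ρ) * ∫ t, t ∂μT))))) ∧
        ((i : ℕ) + 1 = k → ρ ≤ 1 - 1 / k →
          Tendsto (fun ε => ∫ w, w i ∂(πe ε) - ∫ w, w i ∂π) (𝓝[>] 0)
            (𝓝 (β ^ 2 * (∫ s, s ^ 2 ∂μS) / (2 * ∫ t, t ∂μT)))) ∧
        ((i : ℕ) + 1 = k → 1 - 1 / k < ρ →
          Tendsto (fun ε => ∫ w, w i ∂(πe ε) - ∫ w, w i ∂π) (𝓝[>] 0)
            (𝓝 (β ^ 2 * (∫ s, s ^ 2 ∂μS) / (2 * ∫ t, t ∂μT) *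
              ((ρ + (1 - ρ) * (k - 1) ^ 2) / (k ^ 2 * ρ * (1 - ρ)))))) := by
  have hkR : (0 : ℝ) < k := by exact_mod_cast hk
  have hsys : Sys k μT μS := by
    refine ⟨inferInstance, inferInstance, hT0, hS0, hT2, hS2, hT, hS, ?_⟩
    rw [hρ, div_lt_one (by positivity)] at hρ1
    exact hρ1
  have hSRT : S_SRT := Pool.Agent.Helper41.HQ.SRT.main
  have hKWB : S_KWB := Pool.Agent.Helper9.HQ.KWB.main hSRT
  have hKWM : S_KWM := Pool.Agent.Helper9.HQ.KWM.main hSRT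
  have hSQ : S_SQ := Pool.Agent.Helper36.HQ.SQ.main
  have hSPR : S_SPR := Pool.Agent.Helper29.HQ.SPR.main
  have hLOWS : S_LOWS := Pool.Agent.Helper68.HQ.LOWS.main hSRT
  have hLSL : S_LSL := Pool.Agent.Helper68.HQ.LSL.main hSRT
  have hTOP : S_TOP := Pool.Agent.Helper98.HQ.TOP.main
  have hPF1 : S_PF1 := Pool.Agent.Helper6.HQ.PF1.main hKWB hSPR hLOWS hLSL hTOP
  have hPF2 : S_PF2 := Pool.Agent.Helper6.HQ.PF2.main hKWB hLOWS hTOP
  have hIDLE : S_IDLE := Pool.Agent.Helper33.HQ.IDLE.main hSRT hKWB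
  have hCNT : S_CNT := Pool.Agent.Helper33.HQ.CNT.main hSRT
  have hFORCE : S_FORCE := Pool.Agent.Helper85.HQ.FORCE.main hIDLE hCNT
  have hGEN : S_GEN := Pool.Agent.Helper36.HQ.GEN.main
  have hMEANB : S_MEANB := Pool.Agent.Helper36.HQ.MEANB.main hGEN hSQ
  have hID : S_ID := Pool.Agent.H62.HQ.ID.main hMEANB hSQ hKWM
  have hLIPP : S_LIPP := Pool.Agent.Helper84.HQ.LIPP.main hKWB hKWM
  have hCPL : S_CPL := Pool.Agent.Helper84.HQ.CPL.main hKWM
  have hPERT : S_PERT := Pool.Agent.Helper32.HQ.PERT.main hKWB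
  have hTEL : S_TEL := Pool.Agent.Helper32.HQ.TEL.main hPERT hLIPP
  have hPOS : S_POS := Pool.Agent.Helper29.HQ.POS.main
  have hQF : S_QF := Pool.Agent.Helper85.HQ.QF.main hFORCE hPOS
  have hDRIFT : S_DRIFT := Pool.Agent.Helper79.HQ.DRIFT.main hSQ hKWB hKWM
  have hCOAL : S_COAL := Pool.Agent.Helper84.HQ.COAL.main hQF hDRIFT hKWB hKWM
  have hWEAK : S_WEAK := Pool.Agent.Helper57.HQ.WEAK.main hTEL hCPL hLIPP hCOAL hMEANB
  have hPSI : S_PSI := Pool.Agent.Helper85.HQ.PSI.main hWEAK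
  have hDEC : S_DEC := Pool.Agent.Helper36.HQ.DEC.main hKWM
  have hISO : S_ISO := Pool.Agent.Helper36.HQ.ISO.main
  have hBR : S_BR := Pool.Agent.Helper36.HQ.BR.main hISO hKWM
  have hSLLN : S_SLLN := Pool.Agent.Helper29.HQ.SLLN.main
  have hMXL : S_MXL := Pool.Agent.Helper91.HQ.MXL.main
  have hLIM1 : S_LIM1 := Pool.Agent.Helper91.HQ.LIM.main1
  have hLIM2 : S_LIM2 := Pool.Agent.Helper91.HQ.LIM.main2
  have hFAT : S_FAT := Pool.Agent.Helper91.HQ.FAT.main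
  have hAREA1 : S_AREA1 := Pool.Agent.Helper9.HQ.AREA1.main
  have hAREA2 : S_AREA2 := Pool.Agent.Helper29.HQ.AREA2.main
  have hLB : S_LB := Pool.Agent.Helper16.HQ.LB.main hWEAK hDEC hBR hMEANB
  have hLBS : S_LBS := Pool.Agent.Helper16.HQ.LBS.main hLB hFAT hLIM1 hLIM2 hSLLN hAREA1 hAREA2
    hPF1 hPF2 hKWB
  have hLIMS : S_LIMS := Pool.Agent.Helper33.HQ.LIMS.lims hID hPSI hMEANB hLBS
  have hLIMS0 : S_LIMS0 := Pool.Agent.Helper33.HQ.LIMS.lims0 hID hPSI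
  have hRED1 : S_RED1 := Pool.Agent.Helper89.HQ.RED1.main
  have hRED2 : S_RED2 := Pool.Agent.Helper89.HQ.RED2.main hKWM
  have hRED3 : S_RED3 := Pool.Agent.Helper29.HQ.RED3.main hKWM
  have hPSYS : S_PSYS := Pool.Agent.H62.HQ.PSYS.main
  have hEXI : S_EXI := Pool.Agent.H62.HQ.EXI.main hDRIFT hKWB hKWM hISO hRED1
  have hUNQ : S_UNQ := Pool.Agent.Helper85.HQ.UNQ.main hTEL hCPL hCOAL hRED1 hRED2
  have hFORM : S_FORM := Pool.Agent.Helper33.HQ.FORM.main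
  obtain ⟨h1, h2, h3⟩ := asm hLIMS hLIMS0 hMEANB hRED1 hRED2 hRED3 hPSYS hEXI hUNQ hFORM k hk μT μS
    hsys β hβ
  refine ⟨h1, h2, ?_⟩
  intro π πe hπ hπe i
  obtain ⟨h4, h5, h6⟩ := h3 π πe hπ hπe i
  rw [← hρ] at h6
  unfold lval at h6
  refine ⟨h4, h5, ?_, ?_, ?_⟩
  · intro hi
    rw [if_pos hi] at h6
    exact h6
  · intro hi hle
    rw [if_neg (by omega), if_pos hle] at h6
    exact h6
  · intro hi hlt
    rw [if_neg (by omega), if_neg (not_le.2 hlt)] at h6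
    exact h6

end Pool.Agent.Results.MP_1ece5f_pr.HugeServiceLimits
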